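import Pool.Agent.H29.T1.S2
import Pool.Agent.H33.HYP.TWS

/-!
# T1, row TWSK: a nontrivial element of the Selmer group of the twist
-/

set_option autoImplicit false

namespace Pool.T1

open Polynomial Pool.HYP Pool.TOW IsDedekindDomain

open Pool.HYP.H33 in
/-- **TWSK.** -/
theorem twsk : TWSKStmt := by
  intro R _ _ K _ _ _ g f d hf _ hd hsel
  unfold SelK at hsel
  push Not at hsel
  obtain ⟨p, hcop, hN, hloc, hns⟩ := hsel
  obtain ⟨δ, hδ⟩ : ∃ δ : K, δ = algebraMap R K d := ⟨_, rfl⟩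
  have hδ0 : δ ≠ 0 := by
    rw [hδ]
    exact (map_ne_zero_iff _ (IsFractionRing.injective R K)).2 hd
  have hfK : fk K (f.scaleRoots d) = (fk K f).scaleRoots δ := by
    rw [hδ]
    refine map_scaleRoots f d _ ?_
    rw [hf.leadingCoeff, map_one]
    exact one_ne_zero
  refine ⟨p.comp (C δ * X), ?_, ?_, ?_, ?_⟩
  · have h1 := hcop.map (scE δ hδ0).toRingEquiv.toRingHom
    have h2 : IsCoprime (p.comp (C δ * X)) ((fk K (f.scaleRoots d)).comp (C δ * X)) := h1
    rw [hfK, comp_scale] at h2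
    exact h2.of_mul_right_right
  · unfold NSq
    rw [norm_scale _ _ _ hδ0, ← hfK]
    exact hN
  · rintro ⟨s, hs⟩
    obtain ⟨s', rfl⟩ := (scE δ hδ0).surjective s
    have h1 : fk K f ∣ (p - s' ^ 2).comp (C δ * X) := by
      rw [sub_comp, pow_comp]
      exact hs
    rw [dvd_scale _ _ _ hδ0, ← hfK] at h1
    exact hns s' h1
  · intro L _ O' ι hL
    obtain ⟨u₁, w, s, a1, a2, a3, a4⟩ := hloc L O' ι hL
    refine ⟨u₁, w, s.comp (C (ι δ) * X), a1, a2, a3, ?_⟩
    have hιδ : ι δ ≠ 0 := (map_ne_zero ι).2 hδ0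
    rw [← hδ]
    have hcm : ∀ q : K[X], (q.map ι).comp (C (ι δ) * X) = (q.comp (C δ * X)).map ι := by
      intro q
      rw [map_comp, Polynomial.map_mul, map_C, map_X]
    -- the degree
    have hdeg : (u₁.comp (C (ι δ) * X)).natDegree = u₁.natDegree := by
      rw [natDegree_comp, natDegree_C_mul_X _ hιδ, mul_one]
    obtain ⟨r, hr⟩ := a4
    have b1 : ((-1) ^ u₁.natDegree * u₁ - p.map ι * s ^ 2).comp (C (ι δ) * X) =
        (fk K f).map ι * ((C (δ ^ (fk K f).natDegree)).map ι * r.comp (C (ι δ) * X)) := by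
      rw [hr, mul_comp, hcm, hfK, comp_scale, Polynomial.map_mul]
      ring
    refine ⟨(C (δ ^ (fk K f).natDegree)).map ι * r.comp (C (ι δ) * X), ?_⟩
    rw [← b1]
    unfold kap
    rw [hdeg, sub_comp, mul_comp, mul_comp, pow_comp, pow_comp, neg_comp, one_comp, hcm]

end Pool.T1
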