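import Pool.Agent.H29.T1.ZS

/-!
# T1T, row ZVAL: the valuation rings of `K` which contain `R`
-/

set_option autoImplicit false

namespace Pool.T1

open Polynomial IsDedekindDomain

namespace ZVal

variable {R : Type} [CommRing R] [IsDedekindDomain R] (K : Type) [Field K] [Algebra R K]
  [IsFractionRing R K]

theorem vP_ne_top (P : HeightOneSpectrum R) : vP K P ≠ ⊤ := by
  unfold vP
  rw [ne_eq, Valuation.valuationSubring_eq_top_iff, not_not]
  infer_instance

theorem mem_vP_alg (P : HeightOneSpectrum R) (a : R) : algebraMap R K a ∈ vP K P :=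
  P.valuation_le_one a

theorem val_one (P : HeightOneSpectrum R) {m : R} (hm : m ∉ P.asIdeal) :
    P.valuation K (algebraMap R K m) = 1 := by
  exact (HeightOneSpectrum.valuation_eq_one_iff_notMem P).2 hm

theorem coe_vP (P : HeightOneSpectrum R) :
    (vP K P : Set K) = {x | ∃ m : R, m ∉ P.asIdeal ∧ ∃ a : R,
        algebraMap R K m * x = algebraMap R K a} := by
  ext x
  constructor
  · intro hx
    obtain ⟨n, d, hnd⟩ := P.exists_primeCompl_mul_eq_of_integer x hx
    exact ⟨d, d.2, n, by rw [mul_comm, hnd]⟩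
  · rintro ⟨m, hm, a, h⟩
    show P.valuation K x ≤ 1
    have h1 : P.valuation K (algebraMap R K m * x) ≤ 1 := by
      rw [h]
      exact P.valuation_le_one a
    rwa [map_mul, val_one K P hm, one_mul] at h1

theorem vP_inj : Function.Injective fun P : HeightOneSpectrum R => vP K P := by
  intro P P' h
  exact HeightOneSpectrum.eq_of_valuation_isEquiv_valuation (K := K)
    (((P.valuation K).isEquiv_iff_valuationSubring (P'.valuation K)).2 h)

end ZVal

open ZVal in
/-- **ZVAL.** -/
theorem zval : ZVALStmt := by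
  intro R _ _ K _ _ _
  refine ⟨?_, fun P => ⟨vP_ne_top K P, mem_vP_alg K P, coe_vP K P⟩, vP_inj K⟩
  intro w hw hR
  -- the prime of `R` below `w`
  obtain ⟨φ, hφ⟩ : ∃ φ : R →+* w, ∀ a, ((φ a : w) : K) = algebraMap R K a :=
    ⟨(algebraMap R K).codRestrict w hR, fun a => rfl⟩
  obtain ⟨I, hI⟩ : ∃ I : Ideal R, I = (IsLocalRing.maximalIdeal w).comap φ := ⟨_, rfl⟩
  have hprime : I.IsPrime := by
    rw [hI]
    exact Ideal.IsPrime.comap φ
  have hunit : ∀ m : R, m ∉ I → ((algebraMap R K m)⁻¹ ∈ w) := by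
    intro m hm
    rw [hI, Ideal.mem_comap, IsLocalRing.mem_maximalIdeal, mem_nonunits_iff, not_not] at hm
    obtain ⟨y, hy⟩ := hm.exists_right_inv
    have h1 : algebraMap R K m * (y : K) = 1 := by
      rw [← hφ]
      exact_mod_cast congrArg (fun z : w => (z : K)) hy
    rw [← eq_inv_of_mul_eq_one_right h1]
    exact y.2
  have hne : I ≠ ⊥ := by
    intro h0
    apply hw
    rw [eq_top_iff]
    intro x _
    obtain ⟨a, b, hb, rfl⟩ := IsFractionRing.div_surjective (A := R) x
    rw [div_eq_mul_inv]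
    refine w.mul_mem _ _ (hR a) (hunit b ?_)
    rw [h0, Ideal.mem_bot]
    exact nonZeroDivisors.ne_zero hb
  refine ⟨⟨I, hprime, hne⟩, ?_⟩
  have hle : HeightOneSpectrum.valuationSubringAtPrime K (⟨I, hprime, hne⟩ : HeightOneSpectrum R) ≤
      w := by
    rw [HeightOneSpectrum.valuationSubringAtPrime_eq_valuationSubring]
    intro x hx
    obtain ⟨m, hm, a, h⟩ : x ∈ {x | ∃ m : R, m ∉ I ∧ ∃ a : R,
        algebraMap R K m * x = algebraMap R K a} := by
      have h1 := coe_vP K (⟨I, hprime, hne⟩ : HeightOneSpectrum R)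
      have h2 : x ∈ (vP K (⟨I, hprime, hne⟩ : HeightOneSpectrum R) : Set K) := hx
      rw [h1] at h2
      exact h2
    have hm0 : algebraMap R K m ≠ 0 := by
      intro h0
      apply hm
      rw [(IsFractionRing.injective R K) (h0.trans (map_zero _).symm)]
      exact I.zero_mem
    have hx' : x = (algebraMap R K m)⁻¹ * algebraMap R K a := by
      rw [← h, inv_mul_cancel_left₀ hm0]
    rw [hx']
    exact w.mul_mem _ _ (hunit m hm) (hR a)
  have := ValuationSubring.eq_of_le_of_ne_top _ hle hw
  rw [← this, HeightOneSpectrum.valuationSubringAtPrime_eq_valuationSubring]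

end Pool.T1
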